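import Pool.Agent.H58.SF.Fin
import Pool.Agent.H21.SF.OS
import Pool.Agent.H21.SF.TK
import Pool.Agent.H81.SF.PO

/-!
# Templates between the sides of a promise constraint satisfaction problem

Let `𝔸` be a countable structure whose automorphism group has finitely many orbits on tuples, let
`ℙ` be a pp-power of `𝔸` and let `𝕊 → ℙ → 𝕋` be homomorphisms where `𝕊` is finite. If the
homomorphisms from powers of `𝕊` to `𝕋` satisfy the criterion for the NP-hardness of the promise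
constraint satisfaction problem of `(𝕊, 𝕋)` of Brandts, Wrochna and Živný, or have small
families, or if `𝕋` is finite and there is no Olšák function, then `𝔸` pp-constructs `K₃`.
The definitions are in `Pool.Agent.H68.BG.Conj`, `Pool.Agent.H58.SF.Defs` and `Targets`
(`PPPower`).
-/

namespace Pool.Agent.H58.Keep.PromiseSandwich

open Pool.Agent.H68.BP Pool.Agent.H58.SF

theorem result (σ τ : Sig) (S A T : Type) (𝔸 : Str σ A) (n : ℕ) (ℙ : Str τ (Fin n → A))
    (𝕊 : Str τ S) (𝕋 : Str τ T) (hA : Countable A) (hol : Oligo 𝔸) (hn : 1 ≤ n)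
    (hP : PPPower 𝔸 n ℙ) (hS : Finite S) (hs : ∃ s, IsHom 𝕊 ℙ s) (hr : ∃ r, IsHom ℙ 𝕋 r)
    (h : BoundedSelection 𝕊 𝕋 ∨ SmallFamilies 𝕊 𝕋 ∨ (Finite T ∧ ¬ HasOlsak 𝕊 𝕋)) :
    PPConstructsK3 𝔸 :=
  criterionP (Pool.Agent.H21.SF.pf_OS Pool.Agent.H21.SF.pf_TK) Pool.Agent.H81.SF.pf_PO hA hol
    hn hP hS hs hr h

end Pool.Agent.H58.Keep.PromiseSandwich
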