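import Pool.Agent.H58.SF.MH
import Pool.Agent.H21.SF.OS
import Pool.Agent.H21.SF.TK
import Pool.Agent.H81.SF.PO

/-!
# Pseudo-Olšák polymorphisms modulo a group of automorphisms

Let `𝔸` be a countable structure and let `G` be any group of automorphisms of `𝔸` with finitely
many orbits on `n`-tuples for every `n`. If `𝔸` does not pp-construct `K₃` then `𝔸` has a
polymorphism `o` of arity six with
`α (o (x, x, y, y, y, x)) = β (o (x, y, x, y, x, y)) = γ (o (y, x, x, x, y, y))` for some maps `α`,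
`β`, `γ` in the closure of `G`. In particular this holds for every reduct `𝔸` of a countable
homogeneous structure `𝔹` with self-embeddings `α`, `β`, `γ` of `𝔹`.
The definitions are in `Pool.Agent.H68.BG.Conj`, `Pool.Agent.H58.SF.Defs` (`IsPoly`),
`Pool.Agent.H58.SF.MG` (`OligoGroup`, `LocallyIn`) and `MH` (`PseudoOlsakMod`).
-/

namespace Pool.Agent.H58.Keep.PseudoOlsak

open Pool.Agent.H68.BP Pool.Agent.H58.SF

theorem result :
    (∀ (σ : Sig) (A : Type) (𝔸 : Str σ A) (G : Subgroup (Equiv.Perm A)), Countable A →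
      (∀ g ∈ G, IsAut 𝔸 g) → OligoGroup G → ¬ PPConstructsK3 𝔸 → PseudoOlsakMod 𝔸 G) ∧
    ∀ (σ τ : Sig) (A : Type) (𝔸 : Str σ A) (𝔹 : Str τ A), Countable A → Homogeneous 𝔹 →
      IsReduct 𝔸 𝔹 → ¬ PPConstructsK3 𝔸 →
      ∃ (o : (Fin 6 → A) → A) (α β γ : A → A), IsPoly 𝔸 𝔸 o ∧ IsEmb 𝔹 𝔹 α ∧ IsEmb 𝔹 𝔹 β ∧
        IsEmb 𝔹 𝔹 γ ∧ ∀ x y : A,
          α (o ![x, x, y, y, y, x]) = β (o ![x, y, x, y, x, y]) ∧
          β (o ![x, y, x, y, x, y]) = γ (o ![y, x, x, x, y, y]) := by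
  have hOS : T_OS := Pool.Agent.H21.SF.pf_OS Pool.Agent.H21.SF.pf_TK
  have hPO := Pool.Agent.H81.SF.pf_PO
  refine ⟨fun σ A 𝔸 G hA hG hO hK => pseudo_mod hOS hPO hA hG hO hK, ?_⟩
  intro σ τ A 𝔸 𝔹 hA hB hR hK
  obtain ⟨o, α, β, γ, h1, h2, h3, h4, h5⟩ := pseudo_mod hOS hPO hA (G := autGroup 𝔹)
    (fun g hg => Pool.Agent.H18.SF.isAut_reduct hR hg) (oligo_autGroup hB) hK
  exact ⟨o, α, β, γ, h1, emb_of_locallyIn h2, emb_of_locallyIn h3, emb_of_locallyIn h4, h5⟩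

end Pool.Agent.H58.Keep.PseudoOlsak
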